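import Mathlib

/-!
# There is no nonprincipal idempotent ultrafilter for the exponentiation `E₂`
-/

namespace Pool.Agent.Q238.EX

open Filter Topology

/-! ### the abstract argument -/

section Abstract

variable {Z : Type} (d : Z → ℕ∞) (g : Z → Z)

/-- a colouring with fuel -/
def C : ℕ → Z → Prop
  | 0, _ => False
  | k + 1, z => d (g z) < d z ∧ ¬ C k (g z)

lemma C_stable : ∀ (k : ℕ) (z : Z), d z ≤ k → ∀ j, k ≤ j → (C d g j z ↔ C d g k z) := by
  intro k
  induction k with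
  | zero =>
    intro z hz j _
    cases j with
    | zero => exact Iff.rfl
    | succ j =>
      have h0 : d z = 0 := by simpa using hz
      simp [C, h0]
  | succ k ih =>
    intro z hz j hj
    obtain ⟨j, rfl⟩ : ∃ j', j = j' + 1 := ⟨j - 1, by omega⟩
    simp only [C]
    constructor
    · rintro ⟨h1, h2⟩
      refine ⟨h1, fun h3 => h2 ?_⟩
      have h4 : d (g z) ≤ k := by
        have : d (g z) < ((k + 1 : ℕ) : ℕ∞) := lt_of_lt_of_le h1 hz
        exact Order.lt_add_one_iff_of_not_isMax (by simp) |>.1 (by exact_mod_cast this)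
      exact (ih (g z) h4 j (by omega)).2 h3
    · rintro ⟨h1, h2⟩
      refine ⟨h1, fun h3 => h2 ?_⟩
      have h4 : d (g z) ≤ k := by
        have : d (g z) < ((k + 1 : ℕ) : ℕ∞) := lt_of_lt_of_le h1 hz
        exact Order.lt_add_one_iff_of_not_isMax (by simp) |>.1 (by exact_mod_cast this)
      exact (ih (g z) h4 j (by omega)).1 h3

/-- the colouring -/
def c (z : Z) : Prop := C d g (d z).toNat z

lemma c_rec {z : Z} (hz : d z ≠ ⊤) (h : d (g z) < d z) : c d g z ↔ ¬ c d g (g z) := by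
  obtain ⟨k, hk⟩ := ENat.ne_top_iff_exists.1 hz
  have hk' : (d z).toNat = k := by rw [← hk]; simp
  have hgz : d (g z) ≠ ⊤ := ne_top_of_lt h
  obtain ⟨j, hj⟩ := ENat.ne_top_iff_exists.1 hgz
  have hj' : (d (g z)).toNat = j := by rw [← hj]; simp
  rw [← hk, ← hj] at h
  have hjk : j < k := by exact_mod_cast h
  obtain ⟨k, rfl⟩ : ∃ k', k = k' + 1 := ⟨k - 1, by omega⟩
  unfold c
  rw [hk', hj']
  have hst := C_stable d g j (g z) (by rw [hj]) k (by omega)
  simp only [C]
  rw [hst]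
  constructor
  · rintro ⟨_, h2⟩; exact h2
  · intro h2
    exact ⟨by rw [← hk, ← hj]; exact_mod_cast hjk, h2⟩

variable [TopologicalSpace Z]

lemma d_locconst (hd : ∀ k : ℕ, IsClopen {z | d z < k}) {z : Z} (hz : d z ≠ ⊤) :
    ∀ᶠ z' in 𝓝 z, d z' = d z := by
  obtain ⟨k, hk⟩ := ENat.ne_top_iff_exists.1 hz
  have h1 : ∀ᶠ z' in 𝓝 z, d z' < ((k + 1 : ℕ) : ℕ∞) := (hd (k + 1)).isOpen.mem_nhds (by
    show d z < ((k + 1 : ℕ) : ℕ∞)
    rw [← hk]; exact_mod_cast Nat.lt_succ_self k)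
  have h2 : ∀ᶠ z' in 𝓝 z, ¬ d z' < (k : ℕ∞) := (hd k).compl.isOpen.mem_nhds (by
    show ¬ d z < (k : ℕ∞)
    rw [← hk]; exact lt_irrefl _)
  filter_upwards [h1, h2] with z' h1 h2
  obtain ⟨j, hj⟩ := ENat.ne_top_iff_exists.1 (ne_top_of_lt h1)
  rw [← hj] at h1 h2 ⊢
  rw [← hk]
  have h1' : j < k + 1 := by exact_mod_cast h1
  have h2' : ¬ j < k := by exact_mod_cast h2
  have : j = k := by omega
  rw [this]

lemma C_locconst (hd : ∀ k : ℕ, IsClopen {z | d z < k})
    (hg : ∀ z, d z ≠ ⊤ → ContinuousAt g z) :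
    ∀ (k : ℕ) (z : Z), d z ≤ k → ∀ᶠ z' in 𝓝 z, (C d g k z' ↔ C d g k z) := by
  intro k
  induction k with
  | zero => intro z _; exact Filter.Eventually.of_forall fun z' => Iff.rfl
  | succ k ih =>
    intro z hz
    have hzt : d z ≠ ⊤ := ne_top_of_le_ne_top (ENat.natCast_ne_top _) hz
    have h1 := d_locconst d hd hzt
    obtain ⟨j, hj⟩ := ENat.ne_top_iff_exists.1 hzt
    have h2 : ∀ᶠ z' in 𝓝 z, (d (g z') < (j : ℕ∞) ↔ d (g z) < (j : ℕ∞)) := by
      by_cases h : d (g z) < (j : ℕ∞)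
      · have := (hg z hzt).eventually ((hd j).isOpen.mem_nhds h)
        filter_upwards [this] with z' h'
        exact ⟨fun _ => h, fun _ => h'⟩
      · have := (hg z hzt).eventually ((hd j).compl.isOpen.mem_nhds h)
        filter_upwards [this] with z' h'
        exact ⟨fun h'' => absurd h'' h', fun h'' => absurd h'' h⟩
    by_cases h : d (g z) < (j : ℕ∞)
    · have hle : d (g z) ≤ k := by
        have : d (g z) < ((k + 1 : ℕ) : ℕ∞) := lt_of_lt_of_le (by rw [hj] at h; exact h) hz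
        exact Order.lt_add_one_iff_of_not_isMax (by simp) |>.1 (by exact_mod_cast this)
      have h3 := (hg z hzt).eventually (ih (g z) hle)
      filter_upwards [h1, h2, h3] with z' h1 h2 h3
      simp only [C]
      rw [h1, ← hj, h2, h3]
    · filter_upwards [h1, h2] with z' h1 h2
      simp only [C]
      rw [h1, ← hj, h2]
      simp [h]

lemma c_locconst (hd : ∀ k : ℕ, IsClopen {z | d z < k})
    (hg : ∀ z, d z ≠ ⊤ → ContinuousAt g z) {z : Z} (hz : d z ≠ ⊤) :
    ∀ᶠ z' in 𝓝 z, (c d g z' ↔ c d g z) := by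
  have h1 := d_locconst d hd hz
  have h2 := C_locconst d g hd hg (d z).toNat z (by rw [ENat.natCast_toNat hz])
  filter_upwards [h1, h2] with z' h1 h2
  unfold c
  rw [h1]
  exact h2

/-- `p = E₂(p, p)` -/
def Idem (p : Ultrafilter ℕ+) : Prop :=
  ∀ A : Set ℕ+, (∀ᶠ n in (p : Filter ℕ+), n ∈ A) ↔
    ∀ᶠ n : ℕ+ in (p : Filter ℕ+), ∀ᶠ m in (p : Filter ℕ+), m ^ (n : ℕ) ∈ A

theorem no_idem (p : Ultrafilter ℕ+) (hp : Idem p) (F G : ℕ+ → Z)
    (hd : ∀ k : ℕ, IsClopen {z | d z < k}) (hg : ∀ z, d z ≠ ⊤ → ContinuousAt g z)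
    (hF : ∀ᶠ n : ℕ+ in (p : Filter ℕ+), Tendsto (fun m : ℕ+ => F (m ^ (n : ℕ))) p (𝓝 (G n)))
    (hG : ∀ᶠ n in (p : Filter ℕ+), d (G n) ≠ ⊤ ∧ g (G n) = F n)
    (hlt : ∀ᶠ n : ℕ+ in (p : Filter ℕ+), ∀ᶠ m : ℕ+ in (p : Filter ℕ+),
      d (G n) < d (G (m ^ (n : ℕ)))) : False := by
  have hlt' : ∀ᶠ n in (p : Filter ℕ+), d (F n) < d (G n) := by
    apply (hp {n | d (F n) < d (G n)}).2
    filter_upwards [hF, hG, hlt] with n h1 h2 h3
    filter_upwards [h3, h1.eventually (d_locconst d hd h2.1)] with m h4 h5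
    show d (F (m ^ (n : ℕ))) < d (G (m ^ (n : ℕ)))
    rw [h5]; exact h4
  have hiff : (∀ᶠ n in (p : Filter ℕ+), c d g (F n)) ↔
      (∀ᶠ n in (p : Filter ℕ+), ¬ c d g (F n)) := by
    have h0 := hp {n | c d g (F n)}
    simp only [Set.mem_ofPred_eq] at h0
    rw [h0]
    apply Filter.eventually_congr
    filter_upwards [hF, hG, hlt'] with n h1 h2 h3
    have h4 := h1.eventually (c_locconst d g hd hg h2.1)
    have h5 : c d g (G n) ↔ ¬ c d g (F n) := by
      rw [c_rec d g h2.1 (by rw [h2.2]; exact h3), h2.2]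
    rw [← h5]
    constructor
    · intro h6
      obtain ⟨m, hm1, hm2⟩ := (h4.and h6).exists
      exact hm1.1 hm2
    · intro h6
      filter_upwards [h4] with m hm
      exact hm.2 h6
  rcases p.em (fun n => c d g (F n)) with h | h
  · obtain ⟨n, hn⟩ := (h.and (hiff.1 h)).exists
    exact hn.2 hn.1
  · have h' : ∀ᶠ n in (p : Filter ℕ+), ¬ c d g (F n) := h
    obtain ⟨n, hn⟩ := (h'.and (hiff.2 h')).exists
    exact hn.1 hn.2

end Abstract

/-! ### the 2-adic integers -/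

section Padic

abbrev R := ℤ_[2]

/-- the 2-adic valuation -/
noncomputable def val (x : R) : ℕ∞ := emultiplicity (2 : R) x

lemma dvd_iff_norm (k : ℕ) (x : R) : (2 : R) ^ k ∣ x ↔ ‖x‖ ≤ (2 : ℝ) ^ (-k : ℤ) := by
  have := PadicInt.norm_le_pow_iff_mem_span_pow x k
  rw [Ideal.mem_span_singleton] at this
  exact_mod_cast this.symm

lemma isClopen_dvd (k : ℕ) : IsClopen {x : R | (2 : R) ^ k ∣ x} := by
  constructor
  · have : {x : R | (2 : R) ^ k ∣ x} = {x : R | ‖x‖ ≤ (2 : ℝ) ^ (-k : ℤ)} := by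
      ext x; exact dvd_iff_norm k x
    rw [this]
    exact isClosed_le continuous_norm continuous_const
  · have : {x : R | (2 : R) ^ k ∣ x} = {x : R | ‖x‖ < (2 : ℝ) ^ (-k + 1 : ℤ)} := by
      ext x
      have h := PadicInt.norm_le_pow_iff_norm_lt_pow_add_one x (-k : ℤ)
      exact (dvd_iff_norm k x).trans (by exact_mod_cast h)
    rw [this]
    exact isOpen_lt continuous_norm continuous_const

lemma isClopen_val (k : ℕ) : IsClopen {x : R | val x < k} := by
  have : {x : R | val x < k} = {x : R | (2 : R) ^ k ∣ x}ᶜ := by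
    ext x
    show emultiplicity (2 : R) x < k ↔ ¬ (2 : R) ^ k ∣ x
    exact emultiplicity_lt_iff_not_dvd
  rw [this]
  exact (isClopen_dvd k).compl

lemma val_ne_top {x : R} : val x ≠ ⊤ ↔ x ≠ 0 := by
  have hp : Prime (2 : R) := by exact_mod_cast (PadicInt.prime_p (p := 2))
  constructor
  · rintro h rfl
    apply h
    exact emultiplicity_zero _
  · intro hx h
    have : FiniteMultiplicity (2 : R) x := FiniteMultiplicity.of_not_isUnit hp.not_isUnit hx
    exact (finiteMultiplicity_iff_emultiplicity_ne_top.1 this) h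

lemma exists_om (x : R) : ∃ y, x = 2 ^ multiplicity (2 : R) x * y := by
  obtain ⟨y, hy⟩ := pow_multiplicity_dvd (2 : R) x
  exact ⟨y, hy⟩

/-- the odd part -/
noncomputable def om (x : R) : R := Classical.choose (exists_om x)

lemma om_spec (x : R) : x = 2 ^ multiplicity (2 : R) x * om x := Classical.choose_spec (exists_om x)

lemma two_ne : (2 : R) ≠ 0 := by norm_num

lemma om_eq {x u : R} {a : ℕ} (hx : x = 2 ^ a * u) (hu : ¬ (2 : R) ∣ u) :
    val x = a ∧ om x = u := by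
  have h1 : val x = a := by
    apply emultiplicity_eq_of_dvd_of_not_dvd
    · exact ⟨u, hx⟩
    · rintro ⟨t, ht⟩
      apply hu
      refine ⟨t, ?_⟩
      have : (2 : R) ^ a * u = 2 ^ a * (2 * t) := by rw [← hx, ht]; ring
      exact mul_left_cancel₀ (pow_ne_zero _ two_ne) this
  refine ⟨h1, ?_⟩
  have h2 : multiplicity (2 : R) x = a := multiplicity_eq_of_emultiplicity_eq_some h1
  have h3 := om_spec x
  rw [h2] at h3
  rw [hx] at h3
  have h4 := mul_left_cancel₀ (pow_ne_zero _ two_ne) h3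
  rw [← hx] at h4
  exact h4.symm

lemma om_not_dvd {x : R} (hx : x ≠ 0) : ¬ (2 : R) ∣ om x := by
  rintro ⟨t, ht⟩
  have hfin : FiniteMultiplicity (2 : R) x :=
    finiteMultiplicity_iff_emultiplicity_ne_top.2 (val_ne_top.2 hx)
  apply hfin.not_pow_dvd_of_multiplicity_lt (Nat.lt_succ_self _)
  refine ⟨t, ?_⟩
  conv_lhs => rw [om_spec x, ht]
  rw [pow_succ]; ring

lemma om_mul {x b : R} (hx : x ≠ 0) (hb : ¬ (2 : R) ∣ b) :
    val (x * b) = val x ∧ om (x * b) = om x * b := by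
  have hp : Prime (2 : R) := by exact_mod_cast (PadicInt.prime_p (p := 2))
  have hnd : ¬ (2 : R) ∣ om x * b := fun h => (hp.dvd_or_dvd h).elim (om_not_dvd hx) hb
  have h1 : x * b = 2 ^ multiplicity (2 : R) x * (om x * b) := by
    conv_lhs => rw [om_spec x]
    ring
  have h2 := om_eq h1 hnd
  have h3 := om_eq (om_spec x) (om_not_dvd hx)
  exact ⟨by rw [h2.1, h3.1], h2.2⟩

lemma continuousAt_om {x : R} (hx : x ≠ 0) : ContinuousAt om x := by
  have h1 := d_locconst val isClopen_val (val_ne_top.2 hx)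
  have h3 : ∀ᶠ x' in 𝓝 x, om x' - om x = 0 ∨ ‖om x' - om x‖ =
      ‖(2 : R) ^ multiplicity (2 : R) x‖⁻¹ * ‖x' - x‖ := by
    filter_upwards [h1] with x' h'
    right
    have hm : multiplicity (2 : R) x' = multiplicity (2 : R) x := by
      unfold multiplicity
      have : emultiplicity (2 : R) x' = emultiplicity (2 : R) x := h'
      rw [this]
    have h4 : x' - x = 2 ^ multiplicity (2 : R) x * (om x' - om x) := by
      have e1 := om_spec x'
      rw [hm] at e1
      have e2 := om_spec x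
      rw [mul_sub, ← e1, ← e2]
    rw [h4, norm_mul, ← mul_assoc, inv_mul_cancel₀, one_mul]
    rw [norm_ne_zero_iff]
    exact pow_ne_zero _ two_ne
  rw [ContinuousAt, tendsto_iff_norm_sub_tendsto_zero]
  have h5 : Tendsto (fun x' : R => ‖(2 : R) ^ multiplicity (2 : R) x‖⁻¹ * ‖x' - x‖) (𝓝 x)
      (𝓝 0) := by
    have : Tendsto (fun x' : R => ‖(2 : R) ^ multiplicity (2 : R) x‖⁻¹ * ‖x' - x‖) (𝓝 x)
        (𝓝 (‖(2 : R) ^ multiplicity (2 : R) x‖⁻¹ * ‖x - x‖)) := by
      apply Tendsto.const_mul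
      exact ((continuous_id.sub continuous_const).norm).tendsto x
    simpa using this
  apply squeeze_zero' (Filter.Eventually.of_forall fun _ => norm_nonneg _) _ h5
  filter_upwards [h3] with x' h'
  rcases h' with h' | h'
  · rw [h', norm_zero]; positivity
  · rw [h']

lemma exists_lim (p : Ultrafilter ℕ+) (f : ℕ+ → R) : ∃ L, Tendsto f p (𝓝 L) := by
  obtain ⟨L, _, hL⟩ := isCompact_univ.ultrafilter_le_nhds (p.map f) (by simp)
  exact ⟨L, hL⟩

lemma eventually_dvd {α : Type} {l : Filter α} {f : α → R} {L : R} (h : Tendsto f l (𝓝 L))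
    (k : ℕ) : ∀ᶠ a in l, (2 : R) ^ k ∣ f a - L := by
  have h1 : Tendsto (fun a => f a - L) l (𝓝 0) := by
    have := h.sub (tendsto_const_nhds (x := L))
    simpa using this
  exact h1.eventually ((isClopen_dvd k).isOpen.mem_nhds (dvd_zero _))

lemma tendsto_of_dvd {α : Type} {l : Filter α} {f : α → R}
    (h : ∀ k : ℕ, ∀ᶠ a in l, (2 : R) ^ k ∣ f a) : Tendsto f l (𝓝 0) := by
  rw [tendsto_zero_iff_norm_tendsto_zero, Metric.tendsto_nhds]
  intro ε hε
  obtain ⟨k, hk⟩ := PadicInt.exists_pow_neg_lt 2 hε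
  filter_upwards [h k] with a ha
  rw [dvd_iff_norm] at ha
  rw [Real.dist_eq, sub_zero, abs_of_nonneg (norm_nonneg _)]
  exact lt_of_le_of_lt ha (by exact_mod_cast hk)

end Padic

end Pool.Agent.Q238.EX
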