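import Mathlib
import Pool.Agent.Q238.EX.Main

namespace Pool.Agent.Q238.EX

open Filter Topology

/-! ### the even case -/

section Even

/-- the 2-adic valuation of `n` -/
noncomputable def V (n : ℕ+) : ℕ := padicValNat 2 n

/-- the 2-adic valuation of the 2-adic valuation of `n` -/
noncomputable def W (n : ℕ+) : ℕ := padicValNat 2 (V n)

lemma V_pow (m n : ℕ+) : V (m ^ (n : ℕ)) = n * V m := by
  unfold V
  rw [PNat.pow_coe, padicValNat.pow]

lemma W_pow {m n : ℕ+} (hm : V m ≠ 0) : W (m ^ (n : ℕ)) = V n + W m := by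
  unfold W
  rw [V_pow, padicValNat.mul n.ne_zero hm]
  rfl

lemma two_pow_dvd_natCast (k n : ℕ) : (2 : R) ^ k ∣ (n : R) ↔ 2 ^ k ∣ n := by
  have h := PadicInt.pow_p_dvd_int_iff (p := 2) k (n : ℤ)
  have h2 : ((2 : ℕ) : R) ^ k ∣ ((n : ℤ) : R) ↔ (2 : R) ^ k ∣ (n : R) := by push_cast; rfl
  rw [← h2, h]
  exact_mod_cast Iff.rfl

lemma val_natCast {n : ℕ} (hn : n ≠ 0) : val (n : R) = padicValNat 2 n := by
  unfold val
  apply emultiplicity_eq_of_dvd_of_not_dvd
  · rw [two_pow_dvd_natCast]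
    exact pow_padicValNat_dvd
  · rw [two_pow_dvd_natCast]
    exact pow_succ_padicValNat_not_dvd hn

theorem case_even (p : Ultrafilter ℕ+) (hp : Idem p)
    (h2 : ∀ᶠ n : ℕ+ in (p : Filter ℕ+), 2 ∣ (n : ℕ)) : False := by
  have hV : ∀ᶠ n : ℕ+ in (p : Filter ℕ+), V n ≠ 0 := by
    filter_upwards [h2] with n hn
    have : 1 ≤ padicValNat 2 (n : ℕ) := one_le_padicValNat_of_dvd n.ne_zero hn
    unfold V
    omega
  obtain ⟨L, hL⟩ := exists_lim p (fun m => (W m : R))
  apply no_idem val (fun z => (((val z).toNat : ℕ) : R) - L) p hp (fun n => (W n : R) - L)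
    (fun n => (V n : R)) isClopen_val
  · intro z hz
    have h1 := d_locconst val isClopen_val hz
    have h3 : (fun z : R => (((val z).toNat : ℕ) : R) - L) =ᶠ[𝓝 z]
        fun _ => (((val z).toNat : ℕ) : R) - L := by
      filter_upwards [h1] with z' h1
      rw [h1]
    exact (continuousAt_congr h3).2 continuousAt_const
  · refine Filter.Eventually.of_forall fun n => ?_
    have h3 : Tendsto (fun m : ℕ+ => (V n : R) + ((W m : R) - L)) p (𝓝 ((V n : R) + (L - L))) :=
      tendsto_const_nhds.add (hL.sub tendsto_const_nhds)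
    rw [sub_self, add_zero] at h3
    refine h3.congr' ?_
    filter_upwards [hV] with m hm
    rw [W_pow hm]
    push_cast
    ring
  · filter_upwards [hV] with n hn
    have h3 := val_natCast hn
    refine ⟨by rw [h3]; exact ENat.natCast_ne_top _, ?_⟩
    simp only [h3]
    rfl
  · filter_upwards [hV] with n hn
    filter_upwards [hV] with m hm
    have h4 : V (m ^ (n : ℕ)) ≠ 0 := by
      rw [V_pow]; exact mul_ne_zero n.ne_zero hm
    rw [val_natCast hn, val_natCast h4]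
    have h5 : padicValNat 2 (V n) < padicValNat 2 (V (m ^ (n : ℕ))) := by
      have h6 : padicValNat 2 (V (m ^ (n : ℕ))) = V n + W m := W_pow hm
      rw [h6]
      have h7 : padicValNat 2 (V n) < V n := by
        have h8 : 2 ^ padicValNat 2 (V n) ≤ V n := Nat.le_of_dvd (by omega) pow_padicValNat_dvd
        exact lt_of_lt_of_le (Nat.lt_two_pow_self) h8
      omega
    exact_mod_cast h5

end Even

/-! ### the odd case -/

section Odd

/-- `n² - 1` -/
noncomputable def sq (z : R) : R := z ^ 2 - 1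

lemma sq_pow (z : R) (n : ℕ) : ∃ t, sq (z ^ n) = sq z * (n + sq z * t) := by
  obtain ⟨t, ht⟩ : ∃ t, (1 + sq z) ^ n = 1 + sq z * (n + sq z * t) := by
    induction n with
    | zero => exact ⟨0, by simp⟩
    | succ n ih =>
      obtain ⟨t, ht⟩ := ih
      refine ⟨t + n + sq z * t, ?_⟩
      rw [pow_succ, ht]
      push_cast
      ring
  refine ⟨t, ?_⟩
  have h1 : (1 + sq z) ^ n = 1 + sq (z ^ n) := by
    unfold sq
    ring
  rw [h1] at ht
  exact add_left_cancel ht

lemma two_dvd_sub_one {n : ℕ} (hn : ¬ 2 ∣ n) : (2 : R) ∣ (n : R) - 1 := by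
  obtain ⟨k, rfl⟩ : ∃ k, n = 2 * k + 1 := ⟨n / 2, by omega⟩
  exact ⟨k, by push_cast; ring⟩

lemma two_not_dvd_one : ¬ (2 : R) ∣ 1 := by
  have hp : Prime (2 : R) := by exact_mod_cast (PadicInt.prime_p (p := 2))
  intro h
  exact hp.not_isUnit (isUnit_of_dvd_one h)

lemma two_prime : Prime (2 : R) := by exact_mod_cast (PadicInt.prime_p (p := 2))

lemma sq_ne {n : ℕ} (hn : n ≠ 1) : sq (n : R) ≠ 0 := by
  intro h
  unfold sq at h
  have h1 : ((n : R)) ^ 2 = 1 := sub_eq_zero.1 h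
  have h2 : n ^ 2 = 1 := by exact_mod_cast h1
  exact hn (by simpa using h2)

lemma pow_dvd_of_not_dvd {u x : R} {k : ℕ} (hu : ¬ (2 : R) ∣ u) (h : (2 : R) ^ k ∣ u * x) :
    (2 : R) ^ k ∣ x := (two_prime.pow_dvd_of_dvd_mul_left k hu h)

lemma om_pow {z : R} (hz : sq z ≠ 0) (h2 : (2 : R) ∣ sq z) {n : ℕ} (hn : ¬ 2 ∣ n) :
    ∃ t, om (sq (z ^ n)) = om (sq z) * (n + sq z * t) := by
  obtain ⟨t, ht⟩ := sq_pow z n
  refine ⟨t, ?_⟩
  rw [ht]
  apply (om_mul hz _).2
  intro h
  have h3 : (2 : R) ∣ (n : R) := (dvd_add_left (h2.mul_right t)).1 h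
  apply two_not_dvd_one
  have := dvd_sub h3 (two_dvd_sub_one hn)
  simpa using this

theorem case_odd (p : Ultrafilter ℕ+) (hp : Idem p)
    (h2 : ∀ᶠ n : ℕ+ in (p : Filter ℕ+), ¬ 2 ∣ (n : ℕ)) (h1 : ∀ᶠ n : ℕ+ in (p : Filter ℕ+), n ≠ 1) :
    False := by
  obtain ⟨U, hU⟩ := exists_lim p (fun m => om (sq ((m : ℕ) : R)))
  have hne : ∀ᶠ n : ℕ+ in (p : Filter ℕ+), sq ((n : ℕ) : R) ≠ 0 := by
    filter_upwards [h1] with n hn
    apply sq_ne
    intro h
    exact hn (PNat.coe_injective h)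
  have hone : ∀ᶠ n : ℕ+ in (p : Filter ℕ+), (2 : R) ∣ sq ((n : ℕ) : R) := by
    filter_upwards [h2] with n hn
    have h3 := two_dvd_sub_one hn
    have h4 : sq ((n : ℕ) : R) = (((n : ℕ) : R) - 1) * (((n : ℕ) : R) + 1) := by unfold sq; ring
    rw [h4]
    exact h3.mul_right _
  have hUd : ¬ (2 : R) ∣ U := by
    intro h
    obtain ⟨m, hm, hm'⟩ := ((eventually_dvd hU 1).and hne).exists
    rw [pow_one] at hm
    exact om_not_dvd hm' ((dvd_sub_left h).1 hm)
  -- `n² - 1 → 0` along `p`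
  have hall : ∀ k : ℕ, ∀ᶠ n : ℕ+ in (p : Filter ℕ+), (2 : R) ^ (k + 1) ∣ sq ((n : ℕ) : R) := by
    intro k
    induction k with
    | zero => simpa using hone
    | succ k ih =>
      have h3 := (hp {n : ℕ+ | (2 : R) ^ (k + 1) ∣ om (sq ((n : ℕ) : R)) - U}).1
        (eventually_dvd hU (k + 1))
      filter_upwards [h2, h3] with n hn h3
      obtain ⟨m, h4, h5, h6, h7, h8⟩ := (h3.and ((eventually_dvd hU (k + 1)).and
        (ih.and (hne.and hone)))).exists
      have h4' : (2 : R) ^ (k + 1) ∣ om (sq (((m ^ (n : ℕ) : ℕ+) : ℕ) : R)) - U := h4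
      rw [PNat.pow_coe, Nat.cast_pow] at h4'
      obtain ⟨t, ht⟩ := om_pow h7 h8 hn
      rw [ht] at h4'
      have h9 : (2 : R) ^ (k + 1) ∣ U * (((n : ℕ) : R) - 1) := by
        have e : U * (((n : ℕ) : R) - 1) =
            (om (sq ((m : ℕ) : R)) * (((n : ℕ) : R) + sq ((m : ℕ) : R) * t) - U)
            - (om (sq ((m : ℕ) : R)) - U) * ((n : ℕ) : R)
            - sq ((m : ℕ) : R) * (t * om (sq ((m : ℕ) : R))) := by ring
        rw [e]
        exact dvd_sub (dvd_sub h4' (h5.mul_right _)) (h6.mul_right _)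
      have h10 := pow_dvd_of_not_dvd hUd h9
      have h11 : (2 : R) ∣ ((n : ℕ) : R) + 1 := by
        have h12 : ((n : ℕ) : R) + 1 = (((n : ℕ) : R) - 1) + 2 := by ring
        rw [h12]
        exact dvd_add (two_dvd_sub_one hn) dvd_rfl
      have h13 : sq ((n : ℕ) : R) = (((n : ℕ) : R) - 1) * (((n : ℕ) : R) + 1) := by
        unfold sq; ring
      rw [h13, pow_succ]
      exact mul_dvd_mul h10 h11
  have hall' : ∀ k : ℕ, ∀ᶠ n : ℕ+ in (p : Filter ℕ+), (2 : R) ^ k ∣ sq ((n : ℕ) : R) := by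
    intro k
    filter_upwards [hall k] with n hn
    exact (pow_dvd_pow _ (Nat.le_succ k)).trans hn
  obtain ⟨U', hU'⟩ : ∃ U', U' * U = 1 := by
    have : IsUnit U := by
      rw [PadicInt.isUnit_iff]
      by_contra hne1
      have h3 : ‖U‖ < 1 := lt_of_le_of_ne (PadicInt.norm_le_one U) hne1
      apply hUd
      have := (PadicInt.norm_lt_one_iff_dvd U).1 h3
      exact_mod_cast this
    obtain ⟨u, rfl⟩ := this
    exact ⟨↑u⁻¹, u.inv_mul⟩
  have hcont : Continuous sq := by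
    unfold sq
    exact (continuous_pow 2).sub continuous_const
  apply no_idem (fun z => val (sq z)) (fun z => U' * om (sq z)) p hp
    (fun n => U' * om (sq ((n : ℕ) : R))) (fun n => ((n : ℕ) : R))
  · intro k
    exact (isClopen_val k).preimage hcont
  · intro z hz
    have h3 : sq z ≠ 0 := val_ne_top.1 hz
    exact continuousAt_const.mul ((continuousAt_om h3).comp hcont.continuousAt)
  · filter_upwards [h2] with n hn
    have hz : Tendsto (fun m : ℕ+ => U' * om (sq (((m ^ (n : ℕ) : ℕ+) : ℕ) : R)) -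
        U' * om (sq ((m : ℕ) : R)) * ((n : ℕ) : R)) p (𝓝 0) := by
      apply tendsto_of_dvd
      intro k
      filter_upwards [hall' k, hne, hone] with m h4 h5 h6
      rw [PNat.pow_coe, Nat.cast_pow]
      obtain ⟨t, ht⟩ := om_pow h5 h6 hn
      rw [ht]
      have e : U' * (om (sq ((m : ℕ) : R)) * (((n : ℕ) : R) + sq ((m : ℕ) : R) * t)) -
          U' * om (sq ((m : ℕ) : R)) * ((n : ℕ) : R) =
          sq ((m : ℕ) : R) * (U' * om (sq ((m : ℕ) : R)) * t) := by ring
      rw [e]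
      exact h4.mul_right _
    have hz2 : Tendsto (fun m : ℕ+ => U' * om (sq ((m : ℕ) : R)) * ((n : ℕ) : R)) p
        (𝓝 (U' * U * ((n : ℕ) : R))) :=
      (tendsto_const_nhds.mul hU).mul tendsto_const_nhds
    rw [hU', one_mul] at hz2
    have := hz.add hz2
    simpa using this
  · filter_upwards [hne] with n hn
    exact ⟨val_ne_top.2 hn, rfl⟩
  · filter_upwards [hne] with n hn
    obtain ⟨v, hv⟩ := ENat.ne_top_iff_exists.1 (val_ne_top.2 hn)
    filter_upwards [hall' (v + 1)] with m hm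
    rw [PNat.pow_coe, Nat.cast_pow, ← hv]
    obtain ⟨t, ht⟩ := sq_pow ((m : ℕ) : R) n
    have h3 : (2 : R) ^ (v + 1) ∣ sq (((m : ℕ) : R) ^ (n : ℕ)) := by
      rw [ht]; exact hm.mul_right _
    have h4 : ((v + 1 : ℕ) : ℕ∞) ≤ val (sq (((m : ℕ) : R) ^ (n : ℕ))) :=
      le_emultiplicity_of_pow_dvd h3
    refine lt_of_lt_of_le ?_ h4
    exact_mod_cast Nat.lt_succ_self v

end Odd

end Pool.Agent.Q238.EX
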